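import Pool.Agent.P.MP_874adf_gt.Fs.Final

/-!
Projective-metric planes whose circles are Apollonius sets: the planes of projective type (no
regularity assumed) and the planes on an open convex set whose infinitesimal length is continuous
on a dense open subset. The class consists of the open convex pieces of the Euclidean plane.
-/

set_option autoImplicit false

namespace Pool.Agent.Results.MP_874adf_gt.Finsler

open Pool.Agent.P.MP_874adf_gt.Fs

theorem result (X : Type) [MetricSpace X] (h : AffType X ∨ ProjType X) :
    List.TFAE [∀ (O : X) (a : ℝ), 0 < a → {Y | dist O Y = a}.Nonempty → Apo X O a,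
      AffType X ∧ ∀ O : X, ∃ a0 : ℝ, 0 < a0 ∧ ∀ a : ℝ, 0 < a → a < a0 → Apo X O a,
      ∃ U : Set (EuclideanSpace ℝ (Fin 2)), IsOpen U ∧ Convex ℝ U ∧ Nonempty (X ≃ᵢ U)] :=
  tfae h

end Pool.Agent.Results.MP_874adf_gt.Finsler
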