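import Pool.Agent.P.MP_874adf_gt.Gn.All

/-!
All projective-metric planes whose circles are Apollonius sets, with no regularity of the metric
assumed. If all radii count: exactly the unbounded open convex pieces of the Euclidean plane. If
only nonempty circles count: exactly the open convex pieces of the Euclidean plane. In both
readings the only complete plane is the Euclidean plane itself.
-/

set_option autoImplicit false

namespace Pool.Agent.Results.MP_874adf_gt.Full

open Pool.Agent.P.MP_874adf_gt.Fs Pool.Agent.P.MP_874adf_gt.Gn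

theorem result (X : Type) [MetricSpace X] (h : ConvType X ∨ ProjType X) :
    ((∀ (O : X) (a : ℝ), 0 < a → Apo X O a) ↔
      ∃ U : Set (EuclideanSpace ℝ (Fin 2)), IsOpen U ∧ Convex ℝ U ∧ ¬ Bornology.IsBounded U ∧
        (CompleteSpace X → U = Set.univ) ∧ Nonempty (X ≃ᵢ U)) ∧
    ((∀ (O : X) (a : ℝ), 0 < a → {Y | dist O Y = a}.Nonempty → Apo X O a) ↔
      ∃ U : Set (EuclideanSpace ℝ (Fin 2)), IsOpen U ∧ Convex ℝ U ∧
        (CompleteSpace X → U = Set.univ) ∧ Nonempty (X ≃ᵢ U)) :=
  ⟨final_all all_MAIN h, final_ne all_MAIN h⟩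

end Pool.Agent.Results.MP_874adf_gt.Full
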