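import Pool.Agent.P.MP_874adf_gt.Main

/-!
Apollonius circles in Minkowski planes and in their open convex subsets: the circles are
Apollonius sets exactly when the norm is Euclidean, and one full circle is enough.
-/

set_option autoImplicit false

namespace Pool.Agent.Results.MP_874adf_gt.Minkowski

open Pool.Agent.P.MP_874adf_gt

theorem result (E : Type) [NormedAddCommGroup E] [NormedSpace ℝ E] [StrictConvexSpace ℝ E]
    (h2 : Module.finrank ℝ E = 2) (M : Set E) (hO : IsOpen M) (hC : Convex ℝ M) (hne : M.Nonempty) :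
    List.TFAE [
      ∀ F ∈ M, ∀ a : ℝ, 0 < a → {X ∈ M | dist F X = a}.Nonempty →
        ∃ A ∈ M, ∃ B ∈ M, ∃ r : ℝ, A ≠ B ∧ 0 < r ∧ r ≠ 1 ∧
          {X ∈ M | dist F X = a} = {C ∈ M | dist A C / dist C B = r},
      ∃ F ∈ M, ∃ a : ℝ, 0 < a ∧ Metric.sphere F a ⊆ M ∧
        ∃ A ∈ M, ∃ B ∈ M, ∃ r : ℝ, A ≠ B ∧ 0 < r ∧ r ≠ 1 ∧
          {X ∈ M | dist F X = a} = {C ∈ M | dist A C / dist C B = r},
      Nonempty (E ≃ₗᵢ[ℝ] EuclideanSpace ℝ (Fin 2))] := by
  have : Nontrivial E := Module.nontrivial_of_finrank_pos (R := ℝ) (by omega)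
  tfae_have 1 → 2 := by
    intro h
    obtain ⟨F, hF⟩ := hne
    obtain ⟨a, ha, hb⟩ := Metric.nhds_basis_closedBall.mem_iff.1 (hO.mem_nhds hF)
    have hs : Metric.sphere F a ⊆ M := Metric.sphere_subset_closedBall.trans hb
    obtain ⟨X, hX⟩ := (NormedSpace.sphere_nonempty (x := F)).2 ha.le
    exact ⟨F, hF, a, ha, hs, h F hF a ha ⟨X, hs hX, by rw [dist_comm]; exact hX⟩⟩
  tfae_have 2 → 3 := by
    rintro ⟨F, -, a, ha, hs, A, hA, B, hB, r, hAB, r0, r1, h⟩
    exact euclid_of_circle h2 hC ha hs hA hB hAB r0 r1 h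
  tfae_have 3 → 1 := by
    rintro ⟨e⟩ F hF a ha ⟨X, hX, hXa⟩
    have c : Continuous fun t : ℝ => X + t • (X - F) := by fun_prop
    have T : Filter.Tendsto (fun t : ℝ => X + t • (X - F)) (nhdsWithin 0 (Set.Ioi 0)) (nhds X) := by
      simpa using (c.tendsto 0).mono_left nhdsWithin_le_nhds
    obtain ⟨t, t1, t2⟩ := ((T.eventually (hO.mem_nhds hX)).and self_mem_nhdsWithin).exists
    have t0 : 0 < t := t2
    obtain ⟨A, hA, r, h⟩ := circle_of_euclid e hC ha hF t1 (by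
      have : X + t • (X - F) - F = (1 + t) • (X - F) := by module
      rw [this, norm_smul, ← dist_eq_norm, dist_comm, hXa, Real.norm_eq_abs, abs_of_pos (by linarith)]
      nlinarith)
    exact ⟨A, hA, _, t1, r, h⟩
  tfae_finish

end Pool.Agent.Results.MP_874adf_gt.Minkowski
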